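import Pool.Agent.H211.AD.Stm4
import Pool.Agent.H211.LR.Ball

/-!
# From lines to balls: density in the full space
-/

set_option autoImplicit false

open Metric Set MeasureTheory Filter Topology
open scoped ENNReal

namespace Pool.Agent.H190.AD211

open Pool.Agent.H211.LR Pool.Agent.H211.AD

/-- the proportion in the direction `b` tends to zero -/
theorem lin_tendsto {ι : Type} [Fintype ι] (B : Set (ι → ℂ)) (a₀ : ι → ℂ) (r₀ : ℝ) (b : ι → ℂ)
    {c C r₁ : ℝ} (hc : 0 < c) (hr₁ : 0 < r₁)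
    (h : ∀ r : ℝ, 0 < r → r < r₁ →
      volume {s : ℂ | ‖s‖ < r ∧ a₀ + s • b ∈ B} ≤ ENNReal.ofReal (C * r ^ ((2 : ℝ) + c))) :
    Tendsto (fun k => lin B a₀ r₀ k b) atTop (𝓝 0) := by
  have hk : Tendsto (fun k : ℕ => ((1 : ℝ) / 2) ^ (k + 1)) atTop (𝓝 0) :=
    (tendsto_pow_atTop_nhds_zero_of_lt_one (by norm_num) (by norm_num)).comp (tendsto_add_atTop_nat 1)
  have h1 : Tendsto (fun k : ℕ => ENNReal.ofReal (C * (((1 : ℝ) / 2) ^ (k + 1)) ^ c)) atTop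
      (𝓝 0) := by
    have h2 : Tendsto (fun k : ℕ => C * (((1 : ℝ) / 2) ^ (k + 1)) ^ c) atTop (𝓝 (C * 0)) := by
      refine Tendsto.const_mul C ?_
      have h3 := hk.rpow_const (p := c) (Or.inr hc.le)
      rwa [Real.zero_rpow hc.ne'] at h3
    rw [mul_zero] at h2
    have h4 := (ENNReal.continuous_ofReal.tendsto 0).comp h2
    rw [ENNReal.ofReal_zero] at h4
    exact h4
  refine tendsto_of_tendsto_of_tendsto_of_le_of_le' tendsto_const_nhds h1
    (Eventually.of_forall fun _ => zero_le) ?_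
  have h5 : ∀ᶠ k : ℕ in atTop, ((1 : ℝ) / 2) ^ (k + 1) < r₁ := hk.eventually_lt_const hr₁
  filter_upwards [h5] with k hk'
  set r : ℝ := (1 / 2) ^ (k + 1) with hr
  have hr0 : 0 < r := by positivity
  unfold lin
  rw [← hr]
  apply ENNReal.div_le_of_le_mul
  have h6 : volume {s : ℂ | ‖s‖ < r ∧ a₀ + s • b ∈ B ∩ ball a₀ r₀} ≤
      volume {s : ℂ | ‖s‖ < r ∧ a₀ + s • b ∈ B} :=
    measure_mono fun s hs => ⟨hs.1, hs.2.1⟩
  refine h6.trans ((h r hr0 hk').trans (le_of_eq ?_))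
  rw [← ENNReal.ofReal_mul' (by positivity)]
  congr 1
  rw [Real.rpow_add hr0, Real.rpow_two]
  ring

/-- the proportion in the dyadic balls tends to zero -/
theorem prop_tendsto {ι : Type} [Fintype ι] {B : Set (ι → ℂ)} {a₀ : ι → ℂ} {r₀ : ℝ}
    (hr₀ : 0 < r₀) (hmeas : MeasurableSet (B ∩ ball a₀ r₀))
    {𝒱 : Finset (Submodule ℂ (ι → ℂ))} (h𝒱 : ∀ V ∈ 𝒱, V ≠ ⊤)
    (h : ∀ b : ι → ℂ, (∀ V ∈ 𝒱, b ∉ V) → Tendsto (fun k => lin B a₀ r₀ k b) atTop (𝓝 0)) :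
    Tendsto (fun k => prop B a₀ k) atTop (𝓝 0) := by
  obtain ⟨C, hC, k₀, hk₀⟩ := ball_prop hr₀ hmeas
  have h1 : ∀ᵐ b : ι → ℂ, ∀ V ∈ 𝒱, b ∉ V := by
    rw [Filter.eventually_all_finset]
    intro V hV
    have h2 := proper_null (h𝒱 V hV)
    exact measure_eq_zero_iff_ae_notMem.1 h2
  have h2 : Tendsto (fun k => ∫⁻ b in ball (0 : ι → ℂ) 1, lin B a₀ r₀ k b) atTop
      (𝓝 (∫⁻ _b in ball (0 : ι → ℂ) 1, 0)) := by
    refine tendsto_lintegral_of_dominated_convergence (fun _ => ENNReal.ofReal 4)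
      (fun k => lin_meas hmeas k) (fun k => Eventually.of_forall fun b => lin_le _ _ _ _ _) ?_ ?_
    · rw [setLIntegral_const]
      exact ENNReal.mul_ne_top ENNReal.ofReal_ne_top measure_ball_lt_top.ne
    · exact (ae_restrict_of_ae h1).mono fun b hb => h b hb
  rw [lintegral_zero] at h2
  have h3 : Tendsto (fun k => C * ∫⁻ b in ball (0 : ι → ℂ) 1, lin B a₀ r₀ k b) atTop
      (𝓝 (C * 0)) := ENNReal.Tendsto.const_mul h2 (Or.inr hC)
  rw [mul_zero] at h3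
  rw [← tendsto_add_atTop_iff_nat 2]
  refine tendsto_of_tendsto_of_tendsto_of_le_of_le' tendsto_const_nhds h3
    (Eventually.of_forall fun _ => zero_le) ?_
  filter_upwards [eventually_ge_atTop k₀] with k hk
  exact hk₀ k hk

/-- from the dyadic radii to all radii -/
theorem all_radii {ι : Type} [Fintype ι] {B : Set (ι → ℂ)} {a₀ : ι → ℂ}
    (h : Tendsto (fun k => prop B a₀ k) atTop (𝓝 0)) :
    Tendsto (fun r : ℝ => volume (B ∩ ball a₀ r) / volume (ball a₀ r)) (𝓝[>] 0) (𝓝 0) := by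
  set F := Module.finrank ℝ (ι → ℂ) with hF
  set β := (volume : Measure (ι → ℂ)) (ball 0 1) with hβ
  rw [ENNReal.tendsto_nhds_zero]
  intro ε hε
  rw [ENNReal.tendsto_nhds_zero] at h
  have h2F : ENNReal.ofReal (2 ^ F) ≠ 0 := by
    rw [ne_eq, ENNReal.ofReal_eq_zero, not_le]
    positivity
  obtain ⟨K, hK⟩ := eventually_atTop.1 (h (ε / ENNReal.ofReal (2 ^ F))
    (ENNReal.div_pos hε.ne' ENNReal.ofReal_ne_top))
  have hpos : (0 : ℝ) < (1 / 2) ^ K := by positivity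
  filter_upwards [Ioo_mem_nhdsGT hpos] with r hr
  obtain ⟨hr0, hrK⟩ := hr
  have hr1 : r ≤ 1 := hrK.le.trans (pow_le_one₀ (by norm_num) (by norm_num))
  obtain ⟨k, hk1, hk2⟩ := exists_nat_pow_near_of_lt_one hr0 hr1
    (by norm_num : (0 : ℝ) < 1 / 2) (by norm_num : (1 / 2 : ℝ) < 1)
  have hkK : K ≤ k := by
    by_contra hc
    push Not at hc
    have h3 : ((1 : ℝ) / 2) ^ K ≤ (1 / 2) ^ (k + 1) :=
      pow_le_pow_of_le_one (by norm_num) (by norm_num) (by omega)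
    linarith
  have h4 : volume (B ∩ ball a₀ r) ≤ volume (B ∩ ball a₀ ((1 / 2) ^ k)) :=
    measure_mono (inter_subset_inter_right _ (ball_subset_ball hk2))
  have hρ : (0 : ℝ) < (1 / 2) ^ k := by positivity
  have h5 : volume (ball a₀ ((1 / 2) ^ k)) ≤ ENNReal.ofReal (2 ^ F) * volume (ball a₀ r) := by
    rw [Measure.addHaar_ball_of_pos _ _ hρ, Measure.addHaar_ball_of_pos _ _ hr0, ← mul_assoc,
      ← ENNReal.ofReal_mul (by positivity)]
    gcongr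
    rw [← mul_pow]
    apply pow_le_pow_left₀ hρ.le
    have h6 : ((1 : ℝ) / 2) ^ (k + 1) = (1 / 2) ^ k / 2 := by rw [pow_succ]; ring
    rw [h6] at hk1
    linarith
  have hv0 : volume (ball a₀ ((1 / 2) ^ k)) ≠ 0 := (measure_ball_pos _ _ hρ).ne'
  have hv1 : volume (ball a₀ ((1 / 2) ^ k)) ≠ ⊤ := measure_ball_lt_top.ne
  have h7 := hK k hkK
  unfold prop at h7
  rw [ENNReal.div_le_iff hv0 hv1] at h7
  apply ENNReal.div_le_of_le_mul
  calc volume (B ∩ ball a₀ r) ≤ volume (B ∩ ball a₀ ((1 / 2) ^ k)) := h4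
    _ ≤ ε / ENNReal.ofReal (2 ^ F) * volume (ball a₀ ((1 / 2) ^ k)) := h7
    _ ≤ ε / ENNReal.ofReal (2 ^ F) * (ENNReal.ofReal (2 ^ F) * volume (ball a₀ r)) := by gcongr
    _ = ε * volume (ball a₀ r) := by
        rw [← mul_assoc, ENNReal.div_mul_cancel h2F ENNReal.ofReal_ne_top]

/-- **From lines to balls.** -/
theorem t_BALL : S_BALL := by
  intro ι _ B a₀ r₀ hr₀ hmeas 𝒱 h𝒱 h
  refine all_radii (prop_tendsto hr₀ hmeas h𝒱 fun b hb => ?_)
  obtain ⟨c, hc, C, -, r₁, hr₁, h1⟩ := h b hb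
  exact lin_tendsto B a₀ r₀ b hc hr₁ h1

end Pool.Agent.H190.AD211
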